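import Pool.Agent.Lib.MP_185924_lc.Thin

/-!
Countable algebras of subsets of `W × W`, stationary sets and the pressing-down lemma on a
well-order `W` of type omega one.
-/

set_option autoImplicit false

namespace Pool.Agent.Lib.MP_185924_lc

open Set

variable {W K : Type*} [LinearOrder W]

theorem exists_ub [Uncountable W] (hc : ∀ a : W, (Iic a).Countable) {S : Set W}
    (hS : S.Countable) : ∃ b, ∀ a ∈ S, a < b := by
  by_contra h
  push Not at h
  have : (univ : Set W) ⊆ ⋃ a ∈ S, Iic a := fun b _ => by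
    obtain ⟨a, ha, hb⟩ := h b
    exact mem_biUnion ha hb
  exact not_countable_univ ((hS.biUnion fun a _ => hc a).mono this)

/-- Stationary sets, via closure points of functions. -/
def Stat (E : Set W) : Prop := ∀ g : W → W, ∃ ξ ∈ E, (∃ η, η < ξ) ∧ ∀ η < ξ, g η < ξ

theorem stat_pos [Uncountable W] [WellFoundedLT W] (hc : ∀ a : W, (Iic a).Countable) :
    Stat {ξ : W | ∃ η, η < ξ} := by
  intro g
  have h1 : ∀ a : W, ∃ b, a < b ∧ ∀ η ≤ a, g η < b := fun a => by
    obtain ⟨b, hb⟩ := exists_ub hc (((hc a).image g).insert a)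
    exact ⟨b, hb a (mem_insert _ _), fun η hη => hb _ (mem_insert_of_mem _ ⟨η, hη, rfl⟩)⟩
  choose G hG1 hG2 using h1
  obtain ⟨a0⟩ : Nonempty W := inferInstance
  let s : ℕ → W := fun i => G^[i] a0
  have hs : ∀ i, s (i + 1) = G (s i) := fun i => Function.iterate_succ_apply' G i a0
  obtain ⟨b, hb⟩ := exists_ub hc (countable_range s)
  have hne : {b | ∀ i, s i < b}.Nonempty := ⟨b, fun i => hb _ ⟨i, rfl⟩⟩
  let ξ := wellFounded_lt.min _ hne
  have hξ : ∀ i, s i < ξ := wellFounded_lt.min_mem _ hne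
  refine ⟨ξ, ⟨_, hξ 0⟩, ⟨_, hξ 0⟩, fun η hη => ?_⟩
  have : ¬ ∀ i, s i < η := fun h => wellFounded_lt.not_lt_min {b | ∀ i, s i < b} h hη
  push Not at this
  obtain ⟨i, hi⟩ := this
  exact (hG2 _ _ hi).trans (hs i ▸ hξ (i + 1))

theorem Stat.unbounded {E : Set W} (hE : Stat E) (a : W) : ∃ ξ ∈ E, a < ξ := by
  obtain ⟨ξ, h1, ⟨η, h2⟩, h3⟩ := hE fun _ => a
  exact ⟨ξ, h1, h3 η h2⟩

/-- Pressing-down lemma with countably many values at each level. -/
theorem Stat.fodor [Uncountable W] (hc : ∀ a : W, (Iic a).Countable) {β : Type*} {E : Set W}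
    (hE : Stat E) (C : W → Set β) (hC : ∀ η, (C η).Countable) (Q : W → β → Prop)
    (h : ∀ ξ ∈ E, ∃ η < ξ, ∃ b ∈ C η, Q ξ b) : ∃ b, Stat {ξ ∈ E | Q ξ b} := by
  by_contra hcon
  simp only [Stat, not_exists, not_forall] at hcon
  choose g hg using hcon
  have h1 : ∀ ζ : W, ∃ u, ∀ η ≤ ζ, ∀ η' ≤ ζ, ∀ b ∈ C η', g b η < u := fun ζ => by
    have : (image2 (fun b η => g b η) (⋃ η' ∈ Iic ζ, C η') (Iic ζ)).Countable :=
      ((hc ζ).biUnion fun η' _ => hC η').image2 (hc ζ) _
    obtain ⟨u, hu⟩ := exists_ub hc this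
    exact ⟨u, fun η hη η' hη' b hb => hu _ ⟨b, mem_biUnion hη' hb, η, hη, rfl⟩⟩
  choose G hG using h1
  obtain ⟨ξ, hξ, hpos, hcl⟩ := hE G
  obtain ⟨η', hη', b, hb, hQ⟩ := h ξ hξ
  refine hg b ξ ⟨⟨hξ, hQ⟩, hpos, fun η hη => ?_⟩
  exact (hG (max η η') η (le_max_left _ _) η' (le_max_right _ _) b hb).trans
    (hcl _ (max_lt hη hη'))

/-- The points all of whose neighbourhoods in colours outside `S` meet `Y` in a countable set. -/
def Good (adj : K → W × W → W × W → Prop) (S : Set K) (Y : Set (W × W)) : Set (W × W) :=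
  {z | ∀ c, c ∉ S → (Y ∩ Nb adj c z).Countable}

/-- Levels of the algebra generated from parameters at most `η`. -/
def lev (adj : K → W × W → W × W → Prop) (η : W) : ℕ → Set (Set (W × W))
  | 0 => {univ} ∪ (fun a => Col a) '' Iic η ∪ (fun a => {x | a < x.1}) '' Iic η ∪
      image2 (fun c z => Nb adj c z) univ (Iic η ×ˢ Iic η)
  | m + 1 => lev adj η m ∪ image2 (· ∩ ·) (lev adj η m) (lev adj η m) ∪
      image2 (Good adj) univ (lev adj η m)

theorem lev_countable [Finite K] (hc : ∀ a : W, (Iic a).Countable)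
    (adj : K → W × W → W × W → Prop) (η : W) (m : ℕ) : (lev adj η m).Countable := by
  induction m with
  | zero =>
    exact (((countable_singleton _).union ((hc η).image _)).union ((hc η).image _)).union
      (countable_univ.image2 ((hc η).prod (hc η)) _)
  | succ m ih => exact (ih.union (ih.image2 ih _)).union (countable_univ.image2 ih _)

theorem lev_mono_left (adj : K → W × W → W × W → Prop) {η η' : W} (h : η ≤ η') (m : ℕ) :
    lev adj η m ⊆ lev adj η' m := by
  have h' : Iic η ⊆ Iic η' := Iic_subset_Iic.2 h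
  induction m with
  | zero =>
    exact union_subset_union (union_subset_union (union_subset_union Subset.rfl
      (image_mono h')) (image_mono h')) (image2_subset Subset.rfl (prod_mono h' h'))
  | succ m ih =>
    exact union_subset_union (union_subset_union ih (image2_subset ih ih))
      (image2_subset Subset.rfl ih)

theorem lev_mono_right (adj : K → W × W → W × W → Prop) (η : W) : Monotone (lev adj η) :=
  monotone_nat_of_le_succ fun _ _ h => Or.inl (Or.inl h)

/-- The algebra generated from parameters below `ξ`. -/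
def Alg (adj : K → W × W → W × W → Prop) (ξ : W) : Set (Set (W × W)) :=
  {B | ∃ η < ξ, ∃ m, B ∈ lev adj η m}

section

variable {adj : K → W × W → W × W → Prop} {ξ : W}

theorem alg_mono {ξ' : W} (h : ξ ≤ ξ') : Alg adj ξ ⊆ Alg adj ξ' :=
  fun _ ⟨η, h1, h2⟩ => ⟨η, h1.trans_le h, h2⟩

theorem alg_univ (h : ∃ η, η < ξ) : univ ∈ Alg adj ξ :=
  let ⟨η, hη⟩ := h; ⟨η, hη, 0, Or.inl (Or.inl (Or.inl rfl))⟩

theorem alg_col {a : W} (h : a < ξ) : Col a ∈ Alg adj ξ :=
  ⟨a, h, 0, Or.inl (Or.inl (Or.inr ⟨a, le_rfl, rfl⟩))⟩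

theorem alg_gt {a : W} (h : a < ξ) : {x : W × W | a < x.1} ∈ Alg adj ξ :=
  ⟨a, h, 0, Or.inl (Or.inr ⟨a, le_rfl, rfl⟩)⟩

theorem alg_nb (c : K) {z : W × W} (h1 : z.1 < ξ) (h2 : z.2 < ξ) : Nb adj c z ∈ Alg adj ξ :=
  ⟨max z.1 z.2, max_lt h1 h2, 0,
    Or.inr ⟨c, trivial, z, ⟨le_max_left _ _, le_max_right _ _⟩, rfl⟩⟩

theorem alg_inter {B B' : Set (W × W)} (h : B ∈ Alg adj ξ) (h' : B' ∈ Alg adj ξ) :
    B ∩ B' ∈ Alg adj ξ := by
  obtain ⟨η, h1, m, h2⟩ := h
  obtain ⟨η', h1', m', h2'⟩ := h'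
  exact ⟨max η η', max_lt h1 h1', max m m' + 1, Or.inl (Or.inr
    ⟨B, lev_mono_right adj _ (le_max_left _ _) (lev_mono_left adj (le_max_left _ _) _ h2),
     B', lev_mono_right adj _ (le_max_right _ _) (lev_mono_left adj (le_max_right _ _) _ h2'),
     rfl⟩)⟩

theorem alg_good (S : Set K) {B : Set (W × W)} (h : B ∈ Alg adj ξ) : Good adj S B ∈ Alg adj ξ := by
  obtain ⟨η, h1, m, h2⟩ := h
  exact ⟨η, h1, m + 1, Or.inr ⟨S, trivial, B, h2, rfl⟩⟩

theorem alg_countable [Finite K] (hc : ∀ a : W, (Iic a).Countable) : (Alg adj ξ).Countable := by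
  refine ((hc ξ).biUnion fun η _ => countable_iUnion fun m => lev_countable hc adj η m).mono ?_
  rintro B ⟨η, h1, m, h2⟩
  exact mem_biUnion (le_of_lt h1) (mem_iUnion.2 ⟨m, h2⟩)

theorem alg_finset {ι : Type*} (s : Finset ι) (B : Set (W × W)) (hB : B ∈ Alg adj ξ)
    (f : ι → Set (W × W)) (hf : ∀ i ∈ s, f i ∈ Alg adj ξ) : B ∩ ⋂ i ∈ s, f i ∈ Alg adj ξ := by
  classical
  induction s using Finset.induction_on with
  | empty => simpa using hB
  | insert a s _ ih =>
    rw [Finset.set_biInter_insert, inter_comm (f a), ← inter_assoc]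
    exact alg_inter (ih fun i hi => hf i (Finset.mem_insert_of_mem hi))
      (hf a (Finset.mem_insert_self _ _))

end

/-- A set is huge if it is uncountable in uncountably many columns. -/
def Huge (B : Set (W × W)) : Prop := ¬ {a | ¬ (B ∩ Col a).Countable}.Countable

/-- A point generic over the algebra below `ξ`. -/
theorem exists_generic [Finite K] [Uncountable W] (hc : ∀ a : W, (Iic a).Countable)
    (adj : K → W × W → W × W → Prop) (ξ : W) :
    ∃ z : W × W, ξ ≤ z.1 ∧ ∀ B ∈ Alg adj ξ, z ∈ B → Huge B := by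
  have hA : {B ∈ Alg adj ξ | ¬ Huge B}.Countable := (alg_countable hc).mono fun _ h => h.1
  have h1 : (⋃ B ∈ {B ∈ Alg adj ξ | ¬ Huge B}, {a | ¬ (B ∩ Col a).Countable}).Countable :=
    hA.biUnion fun B hB => not_not.1 hB.2
  obtain ⟨a, ha⟩ := exists_ub hc (h1.insert ξ)
  have h2 : (⋃ B ∈ {B ∈ Alg adj ξ | ¬ Huge B}, B ∩ Col a).Countable := by
    refine hA.biUnion fun B hB => ?_
    by_contra hne
    exact lt_irrefl a (ha a (mem_insert_of_mem _ (mem_biUnion hB hne)))
  obtain ⟨t, ht⟩ := exists_ub hc (h2.image Prod.snd)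
  refine ⟨(a, t), (ha ξ (mem_insert _ _)).le, fun B hB hz => ?_⟩
  by_contra hH
  exact lt_irrefl t (ht t ⟨(a, t), mem_biUnion (show B ∈ {B ∈ Alg adj ξ | ¬ Huge B} from ⟨hB, hH⟩)
    ⟨hz, rfl⟩, rfl⟩)

/-- Closure function producing uncountable columns of huge sets. -/
theorem exists_closure [Finite K] [Uncountable W] (hc : ∀ a : W, (Iic a).Countable)
    (adj : K → W × W → W × W → Prop) :
    ∃ g : W → W, ∀ η m, ∀ B ∈ lev adj η m, Huge B → ∃ a < g η, ¬ (B ∩ Col a).Countable := by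
  have h1 : ∀ B : Set (W × W), Huge B → ∃ a, ¬ (B ∩ Col a).Countable := fun B hB => by
    by_contra h
    push Not at h
    exact hB (by simp [h])
  choose! w hw using h1
  have h2 : ∀ η : W, ∃ u, ∀ m, ∀ B ∈ lev adj η m, w B < u := fun η => by
    obtain ⟨u, hu⟩ := exists_ub hc
      ((countable_iUnion fun m => lev_countable hc adj η m).image w)
    exact ⟨u, fun m B hB => hu _ ⟨B, mem_iUnion.2 ⟨m, hB⟩, rfl⟩⟩
  choose g hg using h2
  exact ⟨g, fun η m B hB hH => ⟨w B, hg η m B hB, hw B hH⟩⟩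

end Pool.Agent.Lib.MP_185924_lc
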