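import Pool.Agent.Lib.MP_185924_lc.Alg

/-!
The main induction: finite sets of points that see many colours on every column set.
-/

set_option autoImplicit false

namespace Pool.Agent.Lib.MP_185924_lc

open Set

variable {W K : Type*} [LinearOrder W]

/-- An uncountable subset of a column below `ξ` that lies in the algebra below `ξ`. -/
def CS (adj : K → W × W → W × W → Prop) (ξ : W) (Y : Set (W × W)) : Prop :=
  Y ∈ Alg adj ξ ∧ (∃ a < ξ, Y ⊆ Col a) ∧ ¬ Y.Countable

/-- `Z` sees at least `s` colours on every column set inside `B`. -/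
def Sees (adj : K → W × W → W × W → Prop) (s : ℕ) (ξ : W) (B : Set (W × W))
    (Z : Finset (W × W)) : Prop :=
  (∀ z ∈ Z, ξ ≤ z.1) ∧ ∀ Y, CS adj ξ Y → Y ⊆ B → ∀ S : Finset K, S.card < s →
    ¬ ((↑Z : Set (W × W)) ⊆ Good adj ↑S Y)

omit [LinearOrder W] in
theorem good_anti {adj : K → W × W → W × W → Prop} (S : Set K) {Y Y' : Set (W × W)}
    (h : Y' ⊆ Y) : Good adj S Y ⊆ Good adj S Y' :=
  fun _ hz c hc => (hz c hc).mono (inter_subset_inter_left _ h)

theorem realize [DecidableEq K] [Uncountable W] (hc : ∀ a : W, (Iic a).Countable)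
    {adj : K → W × W → W × W → Prop} {s : ℕ} {E : Set W} (hE : Stat E) {B : Set (W × W)}
    (hS : ∀ ξ ∈ E, ∃ Z, Sees adj s ξ B Z) (S : Finset K) (hcard : S.card ≤ s)
    (d : Multiset K) (hd : ∀ c ∈ d, c ∈ S) :
    ∀ ξ ∈ E, ∃ Z : Finset (W × W), (∀ z ∈ Z, ξ ≤ z.1) ∧ ∀ Y, CS adj ξ Y → Y ⊆ B →
      (↑Z : Set (W × W)) ⊆ Good adj ↑S Y → ∃ T : K → Finset (W × W),
        (∀ c, T c ⊆ Z ∧ d.count c ≤ (T c).card) ∧
        ¬ (Y ∩ {y | ∀ c, ∀ z ∈ T c, adj c z y}).Countable := by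
  classical
  induction d using Multiset.induction_on with
  | empty =>
    intro ξ _
    exact ⟨∅, by simp, fun Y hY _ _ => ⟨fun _ => ∅, by simp, by simpa using hY.2.2⟩⟩
  | cons c0 d ih =>
    intro ξ hξ
    obtain ⟨Z0, h0, h0'⟩ := hS ξ hξ
    obtain ⟨u, hu⟩ := exists_ub hc (((Z0.countable_toSet.image Prod.fst).union
      (Z0.countable_toSet.image Prod.snd)).insert ξ)
    obtain ⟨ξ', hξ', hu'⟩ := hE.unbounded u
    have hlt : ξ < ξ' := (hu ξ (mem_insert _ _)).trans hu'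
    have hz1 : ∀ z ∈ Z0, z.1 < ξ' := fun z hz =>
      (hu _ (mem_insert_of_mem _ (Or.inl ⟨z, hz, rfl⟩))).trans hu'
    have hz2 : ∀ z ∈ Z0, z.2 < ξ' := fun z hz =>
      (hu _ (mem_insert_of_mem _ (Or.inr ⟨z, hz, rfl⟩))).trans hu'
    obtain ⟨Z1, h1, h1'⟩ := ih (fun c h => hd c (Multiset.mem_cons_of_mem h)) ξ' hξ'
    refine ⟨Z0 ∪ Z1, fun z hz => ?_, fun Y hY hYB hG => ?_⟩
    · rcases Finset.mem_union.1 hz with h | h
      · exact h0 z h
      · exact hlt.le.trans (h1 z h)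
    have hc0 : c0 ∈ S := hd c0 (Multiset.mem_cons_self _ _)
    have hnot := h0' Y hY hYB (S.erase c0) (lt_of_lt_of_le (Finset.card_erase_lt_of_mem hc0) hcard)
    rw [not_subset] at hnot
    obtain ⟨z0, hz0, hz0'⟩ := hnot
    have hz0G : z0 ∈ Good adj ↑S Y := hG (by simp [Finset.mem_coe.1 hz0])
    have hunc : ¬ (Y ∩ Nb adj c0 z0).Countable := by
      intro hh
      refine hz0' fun c hcc => ?_
      by_cases e : c = c0
      · rw [e]; exact hh
      · exact hz0G c fun h => hcc (by simpa [e] using h)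
    obtain ⟨a, ha, haY⟩ := hY.2.1
    obtain ⟨T, hT, hT'⟩ := h1' (Y ∩ Nb adj c0 z0)
      ⟨alg_inter (alg_mono hlt.le hY.1) (alg_nb c0 (hz1 z0 hz0) (hz2 z0 hz0)),
        ⟨a, ha.trans hlt, inter_subset_left.trans haY⟩, hunc⟩ (inter_subset_left.trans hYB)
      (fun z hz => good_anti _ inter_subset_left (hG (by simp [Finset.mem_coe.1 hz])))
    have hzT : z0 ∉ T c0 := fun h => absurd (h1 z0 ((hT c0).1 h)) (not_le.2 (hz1 z0 hz0))
    refine ⟨Function.update T c0 (insert z0 (T c0)), fun c => ?_, fun hh => hT' (hh.mono ?_)⟩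
    · by_cases e : c = c0
      · subst e
        simp only [Function.update_self, Multiset.count_cons_self,
          Finset.card_insert_of_notMem hzT]
        refine ⟨Finset.insert_subset (Finset.mem_union_left _ hz0)
          ((hT c).1.trans Finset.subset_union_right), Nat.succ_le_succ (hT c).2⟩
      · rw [Function.update_of_ne e, Multiset.count_cons_of_ne e]
        exact ⟨(hT c).1.trans Finset.subset_union_right, (hT c).2⟩
    · rintro y ⟨⟨hy, hy'⟩, hy''⟩
      refine ⟨hy, fun c z hz => ?_⟩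
      by_cases e : c = c0
      · subst e
        simp only [Function.update_self, Finset.mem_insert] at hz
        rcases hz with rfl | hz
        · exact hy'
        · exact hy'' c z hz
      · rw [Function.update_of_ne e] at hz
        exact hy'' c z hz

theorem stuck [WellFoundedLT W] [Finite K] (hc : ∀ a : W, (Iic a).Countable)
    {adj : K → W × W → W × W → Prop} (hs : ∀ c x y, adj c x y → adj c y x) {n : ℕ}
    (hf : Free adj n) (hI : ¬ Indep adj) {ξ : W} {B : Set (W × W)} (hB : B ∈ Alg adj ξ)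
    {zs : W × W} (hz : ξ ≤ zs.1) (hzB : zs ∈ B) (S : Set K) (Z : Finset (W × W))
    (hZ : ∀ Y, CS adj ξ Y → Y ⊆ B → (↑Z : Set (W × W)) ⊆ Good adj S Y →
      ∃ T : K → Finset (W × W), (∀ c, T c ⊆ Z ∧ (c ∈ S → n ≤ (T c).card)) ∧
        ¬ (Y ∩ {y | ∀ c, ∀ z ∈ T c, adj c z y}).Countable) :
    ∃ B' ∈ Alg adj ξ, zs ∈ B' ∧ ∀ Y, CS adj ξ Y → Y ⊆ B' →
      ¬ (insert zs (↑Z : Set (W × W)) ⊆ Good adj S Y) := by
  classical
  by_contra hcon
  push Not at hcon
  have step : ∀ D : {D : Set (W × W) // D ∈ Alg adj ξ ∧ zs ∈ D ∧ D ⊆ B},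
      ∃ D' : {D : Set (W × W) // D ∈ Alg adj ξ ∧ zs ∈ D ∧ D ⊆ B}, ∃ Y a,
        CS adj ξ Y ∧ Y ⊆ D.1 ∧ Y ⊆ Col a ∧ (↑Z : Set (W × W)) ⊆ Good adj S Y ∧
        D'.1 ⊆ D.1 ∧ D'.1 ⊆ Good adj S Y ∧ D'.1 ⊆ {x | a < x.1} := by
    rintro ⟨D, d1, d2, d3⟩
    obtain ⟨Y, y1, y2, y3⟩ := hcon D d1 d2
    obtain ⟨a, ha, haY⟩ := y1.2.1
    exact ⟨⟨D ∩ Good adj S Y ∩ {x | a < x.1},
      alg_inter (alg_inter d1 (alg_good S y1.1)) (alg_gt ha),
      ⟨⟨d2, y3 (mem_insert _ _)⟩, ha.trans_le hz⟩,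
      (inter_subset_left.trans inter_subset_left).trans d3⟩, Y, a, y1, y2, haY,
      (subset_insert _ _).trans y3, inter_subset_left.trans inter_subset_left,
      inter_subset_left.trans inter_subset_right, inter_subset_right⟩
  choose nx Y a k1 k2 k3 k4 k5 k6 k7 using step
  let D : ℕ → {D : Set (W × W) // D ∈ Alg adj ξ ∧ zs ∈ D ∧ D ⊆ B} :=
    fun i => nx^[i] ⟨B, hB, hzB, Subset.rfl⟩
  have hD : ∀ i, D (i + 1) = nx (D i) := fun i => Function.iterate_succ_apply' nx i _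
  have anti : Antitone fun i => (D i).1 := antitone_nat_of_succ_le fun i => by
    rw [hD]; exact k5 _
  have later : ∀ i j, i < j → Y (D j) ⊆ (nx (D i)).1 := fun i j h => by
    rw [← hD]; exact (k2 _).trans (anti h)
  have hα : StrictMono fun i => a (D i) := fun i j h => by
    obtain ⟨y, hy⟩ : (Y (D j)).Nonempty := by
      by_contra hne
      rw [not_nonempty_iff_eq_empty] at hne
      exact (k1 (D j)).2.2 (by rw [hne]; exact countable_empty)
    have h1 : a (D i) < y.1 := k7 _ (later i j h hy)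
    have h2 : y.1 = a (D j) := k3 _ hy
    exact lt_of_lt_of_eq h1 h2
  choose T hT hT' using fun i => hZ (Y (D i)) (k1 _) ((k2 _).trans (D i).2.2.2) (k4 _)
  obtain ⟨T0, hT0⟩ := Finite.exists_infinite_fiber
    (fun i => (fun c => ⟨T i c, Finset.mem_powerset.2 (hT i c).1⟩ : K → Z.powerset))
  have hinf : {i | T i = fun c => (T0 c).1}.Infinite := by
    rw [infinite_coe_iff] at hT0
    refine hT0.mono fun i hi => ?_
    have hi' : (fun c => (⟨T i c, Finset.mem_powerset.2 (hT i c).1⟩ : Z.powerset)) = T0 := hi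
    funext c
    rw [← hi']
  have hmem : ∀ m y, y ∈ (⋃ i, Y (D i)) → y ∈ Col (a (D m)) → y ∈ Y (D m) := by
    intro m y hy hy'
    obtain ⟨i, hi⟩ := mem_iUnion.1 hy
    have h2 : y.1 = a (D i) := k3 _ hi
    have h3 : y.1 = a (D m) := hy'
    have : i = m := hα.injective (h2.symm.trans h3)
    exact this ▸ hi
  refine hI (thin hc hs hf (fun i => a (D i)) hα
    ((⋃ i, Y (D i)) ∩ {y | ∀ c, ∀ z ∈ (T0 c).1, adj c z y}) (hinf.mono fun i hi hh => ?_)
    fun c => ?_)
  · refine hT' i (hh.mono ?_)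
    rintro y ⟨hy, hy'⟩
    have hi' : T i = fun c => (T0 c).1 := hi
    rw [hi'] at hy'
    exact ⟨⟨mem_iUnion.2 ⟨i, hy⟩, hy'⟩, k3 _ hy⟩
  · by_cases hcS : c ∈ S
    · obtain ⟨i, hi⟩ := hinf.nonempty
      have hi' : T i = fun c => (T0 c).1 := hi
      have := (hT i c).2 hcS
      rw [hi'] at this
      exact Or.inl ⟨(T0 c).1, this, subset_univ _, fun x hx y hy => hy.2 c x hx⟩
    · refine Or.inr fun m m' h y hy => ?_
      have h1 : y ∈ Good adj S (Y (D m)) := k6 _ (later m m' h (hmem m' y hy.1.1 hy.2))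
      exact (h1 c hcS).mono (inter_subset_inter_left _ fun w hw => hmem m w hw.1.1 hw.2)

theorem indep_of_free [WellFoundedLT W] [Uncountable W] [Finite K]
    (hc : ∀ a : W, (Iic a).Countable) {adj : K → W × W → W × W → Prop}
    (hs : ∀ c x y, adj c x y → adj c y x) {n : ℕ} (hf : Free adj n) : Indep adj := by
  classical
  have := Fintype.ofFinite K
  by_contra hI
  choose zs hz1 hz2 using exists_generic hc adj
  have key : ∀ s : ℕ, ∃ E : Set W, ∃ B, Stat E ∧
      ∀ ξ ∈ E, B ∈ Alg adj ξ ∧ zs ξ ∈ B ∧ ∃ Z, Sees adj s ξ B Z := by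
    intro s
    induction s with
    | zero =>
      exact ⟨_, univ, stat_pos hc, fun ξ hξ => ⟨alg_univ hξ, trivial, ∅, by simp,
        fun _ _ _ _ h => absurd h (Nat.not_lt_zero _)⟩⟩
    | succ s ih =>
      obtain ⟨E, B, hE, hB⟩ := ih
      obtain ⟨B', hB'⟩ := hE.fodor hc (fun η => ⋃ m, lev adj η m)
        (fun η => countable_iUnion fun m => lev_countable hc adj η m)
        (fun ξ B' => B' ∈ Alg adj ξ ∧ zs ξ ∈ B' ∧ ∃ Z, Sees adj (s + 1) ξ B' Z) (by
          intro ξ hξ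
          have h1 : ∀ S : Finset K, ∃ Z : Finset (W × W), ∃ B' ∈ Alg adj ξ,
              (∀ z ∈ Z, ξ ≤ z.1) ∧ zs ξ ∈ B' ∧ (S.card ≤ s → ∀ Y, CS adj ξ Y → Y ⊆ B' →
                ¬ (insert (zs ξ) (↑Z : Set (W × W)) ⊆ Good adj ↑S Y)) := by
            intro S
            by_cases hS : S.card ≤ s
            · obtain ⟨Z, g1, g2⟩ := realize hc hE (fun ξ h => (hB ξ h).2.2) S hS (n • S.val)
                (fun c h => Multiset.mem_of_mem_nsmul h) ξ hξ
              obtain ⟨B', b1, b2, b3⟩ := stuck hc hs hf hI (hB ξ hξ).1 (hz1 ξ) (hB ξ hξ).2.1 ↑S Z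
                (fun Y y1 y2 y3 => by
                  obtain ⟨T, t1, t2⟩ := g2 Y y1 y2 y3
                  refine ⟨T, fun c => ⟨(t1 c).1, fun hcS => ?_⟩, t2⟩
                  have := (t1 c).2
                  rwa [Multiset.count_nsmul, Multiset.count_eq_one_of_mem S.nodup hcS,
                    mul_one] at this)
              exact ⟨Z, B', b1, g1, b2, fun _ => b3⟩
            · exact ⟨∅, B, (hB ξ hξ).1, by simp, (hB ξ hξ).2.1, fun h => absurd h hS⟩
          choose Z B' b1 b2 b3 b4 using h1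
          have hA := alg_finset Finset.univ B (hB ξ hξ).1 B' fun S _ => b1 S
          obtain ⟨η, hη, m, hm⟩ := id hA
          refine ⟨η, hη, _, mem_iUnion.2 ⟨m, hm⟩, hA, ⟨(hB ξ hξ).2.1, by simpa using b3⟩,
            insert (zs ξ) (Finset.univ.biUnion Z), fun z hz => ?_, fun Y y1 y2 S hS hh => ?_⟩
          · rcases Finset.mem_insert.1 hz with rfl | hz
            · exact hz1 ξ
            · obtain ⟨S, -, hS⟩ := Finset.mem_biUnion.1 hz
              exact b2 S z hS
          · refine b4 S (Nat.lt_succ_iff.1 hS) Y y1 (fun y hy => ?_) (Subset.trans ?_ hh)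
            · have := (y2 hy).2
              simp only [Finset.mem_univ, iInter_true, mem_iInter] at this
              exact this S
            · rw [Finset.coe_insert]
              exact insert_subset_insert fun z hz => Finset.mem_coe.2
                (Finset.mem_biUnion.2 ⟨S, Finset.mem_univ _, hz⟩))
      exact ⟨_, B', hB', fun ξ hξ => hξ.2⟩
  obtain ⟨E, B, hE, hB⟩ := key (Fintype.card K + 1)
  obtain ⟨g, hg⟩ := exists_closure hc adj
  obtain ⟨ξ, hξ, -, hcl⟩ := hE g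
  obtain ⟨b1, b2, Z, -, b3⟩ := hB ξ hξ
  obtain ⟨η, hη, m, hm⟩ := id b1
  obtain ⟨a, ha, ha'⟩ := hg η m B hm (hz2 ξ B b1 b2)
  have haξ : a < ξ := ha.trans (hcl η hη)
  exact b3 (B ∩ Col a) ⟨alg_inter b1 (alg_col haξ), ⟨a, haξ, inter_subset_right⟩, ha'⟩
    inter_subset_left Finset.univ (by simp) fun z _ c hc => absurd (by simp) hc

end Pool.Agent.Lib.MP_185924_lc
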