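import Mathlib

/-!
Thinning lemmas for edge colourings without a monochromatic complete tripartite graph with parts of
sizes `n`, `n` and uncountable.
-/

set_option autoImplicit false

namespace Pool.Agent.Lib.MP_185924_lc

open Set

section General

variable {V K : Type*}

/-- The `c`-neighbourhood of `z`. -/
def Nb (adj : K → V → V → Prop) (c : K) (z : V) : Set V := {y | adj c z y}

/-- `X` lies in the common `c`-neighbourhood of `n` points of `A`. -/
def Full (adj : K → V → V → Prop) (n : ℕ) (c : K) (A X : Set V) : Prop :=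
  ∃ P : Finset V, n ≤ P.card ∧ (↑P : Set V) ⊆ A ∧ ∀ x ∈ P, ∀ y ∈ X, adj c x y

/-- No colour contains a complete tripartite graph with parts of sizes `n`, `n`, uncountable. -/
def Free (adj : K → V → V → Prop) (n : ℕ) : Prop :=
  ∀ (c : K) (P Q : Finset V) (R : Set V), n ≤ P.card → n ≤ Q.card →
    (∀ x ∈ P, ∀ y ∈ Q, adj c x y) → (∀ x ∈ P, ∀ y ∈ R, adj c x y) →
    (∀ x ∈ Q, ∀ y ∈ R, adj c x y) → R.Countable

theorem Full.mono {adj : K → V → V → Prop} {n : ℕ} {c : K} {A A' X X' : Set V}
    (h : Full adj n c A X) (hA : A ⊆ A') (hX : X' ⊆ X) : Full adj n c A' X' := by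
  obtain ⟨P, h1, h2, h3⟩ := h
  exact ⟨P, h1, h2.trans hA, fun x hx y hy => h3 x hx y (hX hy)⟩

/-- Maximal family lemma. -/
theorem max_family [Finite K] (adj : K → V → V → Prop) (n : ℕ) (Big : Set V → Prop) (X : Set V)
    (hX : Big X) (A : K → Set V) :
    ∃ X' ⊆ X, Big X' ∧ ∃ F : Set V, F.Finite ∧
      ∀ c, Full adj n c (A c) X' ∨ ∀ z ∈ A c, z ∉ F → ¬ Big (X' ∩ Nb adj c z) := by
  classical
  have := Fintype.ofFinite K
  by_contra hcon
  push Not at hcon
  have key : ∀ m : ℕ, ∃ T : K → Finset V, ∑ c, (T c).card = m ∧ (∀ c, (T c).card ≤ n) ∧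
      (∀ c, (↑(T c) : Set V) ⊆ A c) ∧ Big (X ∩ {y | ∀ c, ∀ z ∈ T c, adj c z y}) := by
    intro m
    induction m with
    | zero => exact ⟨fun _ => ∅, by simp, by simp, by simp, by simpa using hX⟩
    | succ m ih =>
      obtain ⟨T, h1, h2, h3, h4⟩ := ih
      obtain ⟨c, hc, z, hz, hzF, hb⟩ := hcon _ inter_subset_left h4 (⋃ c, (↑(T c) : Set V))
        (finite_iUnion fun c => (T c).finite_toSet)
      have hzT : z ∉ T c := fun h => hzF (mem_iUnion.2 ⟨c, h⟩)
      have hlt : (T c).card < n := by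
        by_contra hh
        exact hc ⟨T c, not_lt.1 hh, h3 c, fun x hx y hy => hy.2 c x hx⟩
      refine ⟨Function.update T c (insert z (T c)), ?_, ?_, ?_, ?_⟩
      · have e1 : ∀ d, (Function.update T c (insert z (T c)) d).card
            = (T d).card + if d = c then 1 else 0 := by
          intro d
          by_cases hd : d = c
          · subst hd; simp [Finset.card_insert_of_notMem hzT]
          · simp [hd]
        simp only [e1, Finset.sum_add_distrib, h1]
        simp
      · intro d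
        by_cases hd : d = c
        · subst hd; simp [Finset.card_insert_of_notMem hzT]; omega
        · simp [Function.update_of_ne hd, h2]
      · intro d
        by_cases hd : d = c
        · subst hd
          simp only [Function.update_self, Finset.coe_insert]
          exact insert_subset hz (h3 d)
        · simp [Function.update_of_ne hd, h3]
      · have e : X ∩ {y | ∀ d, ∀ w ∈ Function.update T c (insert z (T c)) d, adj d w y}
            = X ∩ {y | ∀ c, ∀ z ∈ T c, adj c z y} ∩ Nb adj c z := by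
          ext y
          simp only [mem_inter_iff, mem_ofPred_eq, Nb]
          constructor
          · rintro ⟨hy, h⟩
            refine ⟨⟨hy, fun d w hw => h d w ?_⟩, h c z (by simp)⟩
            by_cases hd : d = c
            · subst hd; simp [hw]
            · simpa [Function.update_of_ne hd] using hw
          · rintro ⟨⟨hy, h⟩, h'⟩
            refine ⟨hy, fun d w hw => ?_⟩
            by_cases hd : d = c
            · subst hd
              simp only [Function.update_self, Finset.mem_insert] at hw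
              rcases hw with rfl | hw
              · exact h'
              · exact h d w hw
            · rw [Function.update_of_ne hd] at hw
              exact h d w hw
        rw [e]; exact hb
  obtain ⟨T, h1, h2, -, -⟩ := key (Fintype.card K * n + 1)
  have : ∑ c, (T c).card ≤ Fintype.card K * n := by
    calc ∑ c, (T c).card ≤ ∑ _c : K, n := Finset.sum_le_sum fun c _ => h2 c
      _ = Fintype.card K * n := by simp
  omega

/-- Shrinking an uncountable set relative to an ambient set. -/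
theorem shrink_col [Finite K] {adj : K → V → V → Prop} {n : ℕ} (hf : Free adj n) (X Y : Set V)
    (hYX : Y ⊆ X) (hY : ¬ Y.Countable) :
    ∃ Y' ⊆ Y, ¬ Y'.Countable ∧ ∃ F : Set V, F.Finite ∧
      ∀ c, Full adj n c univ X → ∀ z ∈ X, z ∉ F → (Y' ∩ Nb adj c z).Countable := by
  obtain ⟨Y', h1, h2, F, h3, h4⟩ := max_family adj n (fun Z => ¬ Z.Countable) Y hY (fun _ => X)
  refine ⟨Y', h1, h2, F, h3, fun c hc z hz hzF => ?_⟩
  rcases h4 c with h | h
  · exfalso
    obtain ⟨P, p1, -, p3⟩ := hc
    obtain ⟨Q, q1, q2, q3⟩ := h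
    exact h2 (hf c P Q Y' p1 q1 (fun x hx y hy => p3 x hx y (q2 hy))
      (fun x hx y hy => p3 x hx y (hYX (h1 hy))) q3)
  · exact not_not.1 (h z hz hzF)

theorem unc_diff {Y F : Set V} (hY : ¬ Y.Countable) (hF : F.Countable) : ¬ (Y \ F).Countable := by
  intro h
  exact hY ((h.union hF).mono fun x hx => by by_cases hx' : x ∈ F <;> simp [hx, hx'])

/-- Every uncountable set has an uncountable subset with countable degrees. -/
theorem shrink_own [Finite K] {adj : K → V → V → Prop} {n : ℕ} (hf : Free adj n) (Y : Set V)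
    (hY : ¬ Y.Countable) :
    ∃ Y' ⊆ Y, ¬ Y'.Countable ∧ ∀ c, ∀ z ∈ Y', (Y' ∩ Nb adj c z).Countable := by
  obtain ⟨Y1, h1, h2, F, h3, h4⟩ := max_family adj n (fun Z => ¬ Z.Countable) Y hY (fun _ => univ)
  obtain ⟨Y2, g1, g2, G, g3, g4⟩ := shrink_col hf Y1 Y1 Subset.rfl h2
  refine ⟨Y2 \ (F ∪ G), sdiff_subset.trans (g1.trans h1), unc_diff g2 (h3.union g3).countable,
    fun c z hz => ?_⟩
  have hzF : z ∉ F := fun h => hz.2 (Or.inl h)
  have hzG : z ∉ G := fun h => hz.2 (Or.inr h)
  rcases h4 c with h | h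
  · exact (g4 c h z (g1 hz.1) hzG).mono (inter_subset_inter_left _ sdiff_subset)
  · exact (not_not.1 (h z trivial hzF)).mono (inter_subset_inter_left _ (sdiff_subset.trans g1))

theorem unc_fiber {β : Type*} {Y : Set V} (hY : ¬ Y.Countable) {C : Set β} (hC : C.Countable)
    (R : V → β → Prop) (h : ∀ x ∈ Y, ∃ b ∈ C, R x b) :
    ∃ b ∈ C, ¬ {x ∈ Y | R x b}.Countable := by
  by_contra hcon
  push Not at hcon
  refine hY ((hC.biUnion hcon).mono fun x hx => ?_)
  obtain ⟨b, hb, hr⟩ := h x hx
  exact mem_biUnion hb ⟨hx, hr⟩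

/-- Recursion along a well-founded relation with countably many predecessors. -/
theorem exists_avoid {ι : Type*} (r : ι → ι → Prop) (hr : WellFounded r)
    (hc : ∀ i, {j | r j i}.Countable) (P : ι → Set V) (hP : ∀ i, ¬ (P i).Countable)
    (bad : V → V → Prop) (hb : ∀ i j, ∀ x ∈ P j, (P i ∩ {y | bad x y}).Countable) :
    ∃ p : ι → V, (∀ i, p i ∈ P i) ∧ ∀ i j, r j i → ¬ bad (p j) (p i) := by
  have step : ∀ i (f : ∀ j, r j i → {x // x ∈ P j}),
      ∃ y : {x // x ∈ P i}, ∀ j (h : r j i), ¬ bad (f j h) y := by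
    intro i f
    have hcount : (⋃ j : {j | r j i}, P i ∩ {y | bad (f j.1 j.2) y}).Countable := by
      have := (hc i).to_subtype
      exact countable_iUnion fun j => hb i j.1 _ (f j.1 j.2).2
    obtain ⟨y, hy1, hy2⟩ : (P i \ ⋃ j : {j | r j i}, P i ∩ {y | bad (f j.1 j.2) y}).Nonempty := by
      by_contra hne
      rw [not_nonempty_iff_eq_empty] at hne
      exact unc_diff (hP i) hcount (by rw [hne]; exact countable_empty)
    exact ⟨⟨y, hy1⟩, fun j h hbad => hy2 (mem_iUnion.2 ⟨⟨j, h⟩, hy1, hbad⟩)⟩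
  choose G hG using step
  let p : ∀ i, {x // x ∈ P i} := hr.fix G
  have hp : ∀ i, p i = G i (fun j _ => p j) := fun i => hr.fix_eq G i
  refine ⟨fun i => p i, fun i => (p i).2, fun i j h => ?_⟩
  have := hG i (fun j _ => p j) j h
  rwa [← hp i] at this

end General

section Columns

variable {W K : Type*} [LinearOrder W]

/-- The column with index `a`. -/
def Col (a : W) : Set (W × W) := {x | x.1 = a}

/-- There is an independent set consisting of `omega` many increasing columns, with an increasing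
`W`-sequence in each. -/
def Indep (adj : K → W × W → W × W → Prop) : Prop :=
  ∃ α : ℕ → W, StrictMono α ∧ ∃ p : ℕ → W → W, (∀ i, StrictMono (p i)) ∧
    ∀ i ζ j η, (i, ζ) ≠ (j, η) → ∀ c, ¬ adj c (α i, p i ζ) (α j, p j η)

theorem col_low (hc : ∀ a : W, (Iic a).Countable) (a t : W) :
    (Col a ∩ {y | y.2 ≤ t}).Countable := by
  refine ((hc t).image fun s => (a, s)).mono ?_
  rintro ⟨u, v⟩ ⟨h1, h2⟩
  exact ⟨v, h2, Prod.ext h1.symm rfl⟩

theorem indep_of_countable [WellFoundedLT W] [Finite K] (hc : ∀ a : W, (Iic a).Countable)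
    {adj : K → W × W → W × W → Prop} (hs : ∀ c x y, adj c x y → adj c y x)
    (α : ℕ → W) (hα : StrictMono α) (U : ℕ → Set (W × W)) (hU : ∀ i, U i ⊆ Col (α i))
    (hU' : ∀ i, ¬ (U i).Countable)
    (hd : ∀ c i j, ∀ x ∈ U j, (U i ∩ Nb adj c x).Countable) : Indep adj := by
  obtain ⟨p, hp1, hp2⟩ := exists_avoid (ι := W × ℕ) (Prod.Lex (· < ·) (· < ·))
    (WellFounded.prod_lex wellFounded_lt wellFounded_lt)
    (fun i => ((hc i.1).prod (countable_univ (α := ℕ))).mono fun j hj => by
      rw [mem_ofPred_eq, Prod.lex_def] at hj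
      refine ⟨?_, trivial⟩
      rcases hj with h | h
      · exact le_of_lt h
      · exact le_of_eq h.1)
    (fun q => U q.2) (fun q => hU' q.2) (fun x y => y.2 ≤ x.2 ∨ ∃ c, adj c x y)
    (fun i j x hx => by
      refine ((col_low hc (α i.2) x.2).union
        (countable_iUnion fun c => hd c i.2 j.2 x hx)).mono ?_
      rintro y ⟨hy, h | ⟨c, h⟩⟩
      · exact Or.inl ⟨hU _ hy, h⟩
      · exact Or.inr (mem_iUnion.2 ⟨c, hy, h⟩))
  have he : ∀ i ζ, (α i, (p (ζ, i)).2) = p (ζ, i) := fun i ζ =>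
    Prod.ext (hU i (hp1 (ζ, i))).symm rfl
  refine ⟨α, hα, fun i ζ => (p (ζ, i)).2, fun i ζ η h => ?_, fun i ζ j η hne c hadj => ?_⟩
  · have := hp2 (η, i) (ζ, i) (Prod.Lex.left _ _ h)
    exact not_le.1 fun h' => this (Or.inl h')
  · rw [he, he] at hadj
    have tri : Prod.Lex (· < ·) (· < ·) (ζ, i) (η, j) ∨ Prod.Lex (· < ·) (· < ·) (η, j) (ζ, i) := by
      rcases lt_trichotomy ζ η with h | h | h
      · exact Or.inl (Prod.Lex.left _ _ h)
      · subst h
        rcases lt_trichotomy i j with h | h | h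
        · exact Or.inl (Prod.Lex.right _ h)
        · subst h; exact absurd rfl hne
        · exact Or.inr (Prod.Lex.right _ h)
      · exact Or.inr (Prod.Lex.left _ _ h)
    rcases tri with h | h
    · exact hp2 _ _ h (Or.inr ⟨c, hadj⟩)
    · exact hp2 _ _ h (Or.inr ⟨c, hs _ _ _ hadj⟩)

theorem thin [WellFoundedLT W] [Finite K] (hc : ∀ a : W, (Iic a).Countable)
    {adj : K → W × W → W × W → Prop} (hs : ∀ c x y, adj c x y → adj c y x) {n : ℕ}
    (hf : Free adj n) (α : ℕ → W) (hα : StrictMono α) (X : Set (W × W))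
    (hX : {m | ¬ (X ∩ Col (α m)).Countable}.Infinite)
    (hd : ∀ c, Full adj n c univ X ∨ ∀ m m', m < m' → ∀ y ∈ X ∩ Col (α m'),
      (X ∩ Col (α m) ∩ Nb adj c y).Countable) : Indep adj := by
  obtain ⟨X1, h1, h2, F, hF, h4⟩ := max_family adj n
    (fun Z => {m | ¬ (Z ∩ Col (α m)).Countable}.Infinite) X hX (fun _ => univ)
  have key : ∀ m, ¬ (X1 ∩ Col (α m)).Countable → ∃ U ⊆ X1 ∩ Col (α m), ¬ U.Countable ∧
      ∃ Ex : Set (W × W), Ex.Finite ∧ ∃ b : ℕ,
        (∀ c, Full adj n c univ X1 → ∀ z ∈ X1, z ∉ Ex → (U ∩ Nb adj c z).Countable) ∧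
        (∀ c, ∀ z ∈ U, (U ∩ Nb adj c z).Countable) ∧
        (∀ c, ¬ Full adj n c univ X1 → ∀ z ∈ U, ∀ m', b ≤ m' →
          (X1 ∩ Col (α m') ∩ Nb adj c z).Countable) := by
    intro m hm
    obtain ⟨Y2, a1, a2, Ex, a3, a4⟩ := shrink_col hf X1 _ inter_subset_left hm
    obtain ⟨Y3, b1, b2, b3⟩ := shrink_own hf Y2 a2
    obtain ⟨b, -, hb⟩ := unc_fiber (unc_diff b2 hF.countable) (countable_univ (α := ℕ))
      (fun z b => ∀ c, ¬ Full adj n c univ X1 → ∀ m', b ≤ m' →
          (X1 ∩ Col (α m') ∩ Nb adj c z).Countable) (by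
        intro z hz
        have hfin : (⋃ c : {c // ¬ Full adj n c univ X1},
            {m | ¬ (X1 ∩ Nb adj c.1 z ∩ Col (α m)).Countable}).Finite := by
          refine finite_iUnion fun c => ?_
          rcases h4 c.1 with h | h
          · exact absurd h c.2
          · exact not_infinite.1 (h z trivial hz.2)
        obtain ⟨b, hb⟩ := hfin.bddAbove
        refine ⟨b + 1, trivial, fun c hcc m' hm' => ?_⟩
        by_contra hne
        have : m' ≤ b := hb (mem_iUnion.2 ⟨⟨c, hcc⟩, by
          rw [mem_ofPred_eq, inter_right_comm]; exact hne⟩)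
        omega)
    refine ⟨_, fun z hz => a1 (b1 hz.1.1), hb, Ex, a3, b, fun c hcc z hz hzE => ?_,
      fun c z hz => ?_, fun c hcc z hz m' hm' => hz.2 c hcc m' hm'⟩
    · exact (a4 c hcc z hz hzE).mono (inter_subset_inter_left _ fun w hw => b1 hw.1.1)
    · exact (b3 c z hz.1.1).mono (inter_subset_inter_left _ fun w hw => hw.1.1)
  choose! U hU1 hU2 Ex hEx b k1 k2 k3 using key
  have hnx : ∀ m : ℕ, ∃ m', ¬ (X1 ∩ Col (α m')).Countable ∧ max m (b m) < m' := fun m => by
    obtain ⟨m', a, a'⟩ := h2.exists_gt (max m (b m))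
    exact ⟨m', a, a'⟩
  choose nx hnx1 hnx2 using hnx
  let φ : ℕ → ℕ := fun i => Nat.rec (nx 0) (fun _ m => nx m) i
  have φs : ∀ i, φ (i + 1) = nx (φ i) := fun i => rfl
  have φI : ∀ i, ¬ (X1 ∩ Col (α (φ i))).Countable := fun i => by
    cases i with
    | zero => exact hnx1 0
    | succ i => exact hnx1 _
  have φm : StrictMono φ := strictMono_nat_of_lt_succ fun i => by
    rw [φs]; exact lt_of_le_of_lt (le_max_left _ _) (hnx2 _)
  have φb : ∀ i j, i < j → b (φ i) ≤ φ j := fun i j h => by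
    have : φ (i + 1) ≤ φ j := φm.monotone h
    rw [φs] at this
    exact ((le_max_right _ _).trans (hnx2 _).le).trans this
  have hE : (⋃ i, Ex (φ i)).Countable := countable_iUnion fun i => (hEx _ (φI i)).countable
  refine indep_of_countable hc hs (α ∘ φ) (hα.comp φm) (fun i => U (φ i) \ ⋃ i, Ex (φ i))
    (fun i z hz => (hU1 _ (φI i) hz.1).2) (fun i => unc_diff (hU2 _ (φI i)) hE) ?_
  intro c i j x hx
  have hx1 := hU1 _ (φI j) hx.1
  by_cases hfull : Full adj n c univ X1
  · exact (k1 _ (φI i) c hfull x hx1.1 fun h => hx.2 (mem_iUnion.2 ⟨i, h⟩)).mono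
      (inter_subset_inter_left _ sdiff_subset)
  · rcases lt_trichotomy i j with h | h | h
    · rcases hd c with h' | h'
      · exact absurd (h'.mono Subset.rfl h1) hfull
      · refine (h' _ _ (φm h) x ⟨h1 hx1.1, hx1.2⟩).mono (inter_subset_inter_left _ fun w hw => ?_)
        have := hU1 _ (φI i) hw.1
        exact ⟨h1 this.1, this.2⟩
    · subst h
      exact (k2 _ (φI i) c x hx.1).mono (inter_subset_inter_left _ sdiff_subset)
    · exact (k3 _ (φI j) c hfull x hx.1 _ (φb _ _ h)).mono
        (inter_subset_inter_left _ fun w hw => hU1 _ (φI i) hw.1)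

end Columns

end Pool.Agent.Lib.MP_185924_lc
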